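import Pool.Agent.NH97.WI1

/-!
Algebraic generating function (helper97), part 2: the differential equation and its solution.
-/

namespace Pool.Agent.NH97.WI

open Finset Filter Topology

theorem hcd {f : ℝ → ℝ} {a b x : ℝ} (h : HasDerivAt f a x) (e : b = a) : HasDerivAt f b x :=
  e ▸ h

/-- hypotheses on the coefficients -/
structure Co (w : ℕ → ℝ) (u : ℝ) : Prop where
  u0 : 0 ≤ u
  u1 : u < 1
  bd : ∀ m, |w m| ≤ ((m:ℝ)+1) * u^m

theorem sum1 {ρ : ℝ} (h0 : 0 ≤ ρ) (h1 : ρ < 1) : Summable (fun m : ℕ => ((m:ℝ)+1) * ρ^m) := by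
  have hn : ‖ρ‖ < 1 := by rwa [Real.norm_of_nonneg h0]
  have a := summable_pow_mul_geometric_of_norm_lt_one 1 hn
  have b := summable_geometric_of_lt_one h0 h1
  refine (a.add b).congr ?_
  intro m
  ring

theorem sum2 {ρ : ℝ} (h0 : 0 ≤ ρ) (h1 : ρ < 1) :
    Summable (fun m : ℕ => ((m:ℝ)+1) * ((m:ℝ)+2) * ρ^m) := by
  have hn : ‖ρ‖ < 1 := by rwa [Real.norm_of_nonneg h0]
  have a := summable_pow_mul_geometric_of_norm_lt_one 1 hn
  have a2 := summable_pow_mul_geometric_of_norm_lt_one 2 hn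
  have b := summable_geometric_of_lt_one h0 h1
  refine ((a2.add (a.mul_left 3)).add (b.mul_left 2)).congr ?_
  intro m
  ring

section
variable {w : ℕ → ℝ} {u r : ℝ} (h : Co w u) (hr : 1 < r) (hru : r * u < 1)
include h hr hru

theorem sumw {t : ℝ} (ht : |t| ≤ r) : Summable (fun m => w m * t^m) := by
  have hρ : 0 ≤ r * u := mul_nonneg (by linarith) h.u0
  refine Summable.of_norm_bounded (sum1 hρ hru) ?_
  intro m
  rw [norm_mul, norm_pow, Real.norm_eq_abs, Real.norm_eq_abs, mul_pow]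
  have h1 := h.bd m
  have h2 : |t|^m ≤ r^m := pow_le_pow_left₀ (abs_nonneg _) ht m
  have h3 : (0:ℝ) ≤ u^m := pow_nonneg h.u0 m
  calc |w m| * |t|^m ≤ (((m:ℝ)+1) * u^m) * r^m :=
        mul_le_mul h1 h2 (by positivity) (by positivity)
    _ = _ := by ring

theorem sumwd {t : ℝ} (ht : |t| ≤ r) : Summable (fun m : ℕ => ((m:ℝ)+1) * w (m+1) * t^m) := by
  have hρ : 0 ≤ r * u := mul_nonneg (by linarith) h.u0
  refine Summable.of_norm_bounded ((sum2 hρ hru).mul_left u) ?_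
  intro m
  rw [norm_mul, norm_mul, norm_pow, Real.norm_eq_abs, Real.norm_eq_abs, Real.norm_eq_abs, mul_pow]
  have h1 := h.bd (m+1)
  have h2 : |t|^m ≤ r^m := pow_le_pow_left₀ (abs_nonneg _) ht m
  have h3 : (0:ℝ) ≤ u^(m+1) := pow_nonneg h.u0 _
  have h4 : |(m:ℝ)+1| = (m:ℝ)+1 := abs_of_nonneg (by positivity)
  rw [h4]
  push_cast at h1
  have hr0 : 0 < r := by linarith
  calc ((m:ℝ)+1) * |w (m+1)| * |t|^m ≤ ((m:ℝ)+1) * ((((m:ℝ)+1)+1) * u^(m+1)) * r^m := by
        apply mul_le_mul _ h2 (by positivity) (by positivity)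
        exact mul_le_mul_of_nonneg_left h1 (by positivity)
    _ = _ := by ring

theorem derF {t : ℝ} (ht : |t| < r) :
    HasDerivAt (fun t => ∑' m, w m * t^m) (∑' m : ℕ, ((m:ℝ)+1) * w (m+1) * t^m) t := by
  have hρ : 0 ≤ r * u := mul_nonneg (by linarith) h.u0
  have hr0 : 0 < r := by linarith
  -- bound for the derivative terms
  have key : HasDerivAt (fun t => ∑' m, w m * t^m) (∑' m : ℕ, w m * ((m:ℝ) * t^(m-1))) t := by
    refine hasDerivAt_tsum_of_isPreconnected (𝕜 := ℝ) (F := ℝ) (u := fun m : ℕ =>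
      ((m:ℝ)+1) * ((m:ℝ)+2) * (r*u)^m) (t := Set.Ioo (-r) r) (y₀ := 0)
      (g := fun m t => w m * t^m) (g' := fun m t => w m * ((m:ℝ) * t^(m-1)))
      (sum2 hρ hru) isOpen_Ioo isPreconnected_Ioo ?_ ?_ ⟨by linarith, by linarith⟩ ?_ ?_
    · intro m y _
      exact (hasDerivAt_pow m y).const_mul (w m)
    · intro m y hy
      have hy' : |y| ≤ r := abs_le.mpr ⟨hy.1.le, hy.2.le⟩
      have h1 := h.bd m
      rw [norm_mul, norm_mul, norm_pow, Real.norm_eq_abs, Real.norm_eq_abs, Real.norm_eq_abs,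
        mul_pow]
      have h2 : |y|^(m-1) ≤ r^m := by
        calc |y|^(m-1) ≤ r^(m-1) := pow_le_pow_left₀ (abs_nonneg _) hy' _
          _ ≤ r^m := pow_le_pow_right₀ hr.le (Nat.sub_le _ _)
      have h3 : (0:ℝ) ≤ u^m := pow_nonneg h.u0 _
      have h4 : |(m:ℝ)| = (m:ℝ) := abs_of_nonneg (by positivity)
      rw [h4]
      calc |w m| * ((m:ℝ) * |y|^(m-1)) ≤ (((m:ℝ)+1) * u^m) * ((m:ℝ) * r^m) := by
            apply mul_le_mul h1 _ (by positivity) (by positivity)
            exact mul_le_mul_of_nonneg_left h2 (by positivity)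
        _ ≤ (((m:ℝ)+1) * u^m) * (((m:ℝ)+2) * r^m) := by
            apply mul_le_mul_of_nonneg_left _ (by positivity)
            apply mul_le_mul_of_nonneg_right _ (by positivity)
            linarith
        _ = _ := by ring
    · apply sumw h hr hru
      rw [abs_zero]; exact hr0.le
    · exact ⟨by linarith [(abs_lt.mp ht).1], (abs_lt.mp ht).2⟩
  have e : (∑' m : ℕ, w m * ((m:ℝ) * t^(m-1))) = ∑' m : ℕ, ((m:ℝ)+1) * w (m+1) * t^m := by
    have hs : Summable (fun m : ℕ => w m * ((m:ℝ) * t^(m-1))) := by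
      rw [← summable_nat_add_iff 1]
      refine (sumwd h hr hru ht.le).congr ?_
      intro m
      simp only [Nat.add_sub_cancel]
      push_cast
      ring
    rw [hs.tsum_eq_zero_add]
    simp only [Nat.cast_zero, zero_mul, mul_zero, zero_add, Nat.add_sub_cancel]
    apply tsum_congr
    intro m
    push_cast
    ring
  rw [e] at key
  exact key

theorem sumG {t : ℝ} (ht : |t| ≤ r) :
    Summable (fun m : ℕ => w m / ((m:ℝ)+1) * t^(m+1)) := by
  have hr0 : 0 < r := by linarith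
  refine Summable.of_norm_bounded ((sumw h hr hru ht).norm.mul_left r) ?_
  intro m
  rw [norm_mul, norm_mul, norm_div, norm_pow, norm_pow, Real.norm_eq_abs, Real.norm_eq_abs,
    Real.norm_eq_abs]
  have h4 : |(m:ℝ)+1| = (m:ℝ)+1 := abs_of_nonneg (by positivity)
  rw [h4]
  have h5 : |w m| / ((m:ℝ)+1) ≤ |w m| := div_le_self (abs_nonneg _) (by
    have : (0:ℝ) ≤ m := by positivity
    linarith)
  calc |w m| / ((m:ℝ)+1) * |t|^(m+1) = (|w m| / ((m:ℝ)+1)) * |t|^m * |t| := by ring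
    _ ≤ |w m| * |t|^m * r := by
        apply mul_le_mul _ ht (by positivity) (by positivity)
        exact mul_le_mul_of_nonneg_right h5 (by positivity)
    _ = _ := by ring

theorem derG {t : ℝ} (ht : |t| < r) :
    HasDerivAt (fun t => ∑' m : ℕ, w m / ((m:ℝ)+1) * t^(m+1)) (∑' m : ℕ, w m * t^m) t := by
  have hρ : 0 ≤ r * u := mul_nonneg (by linarith) h.u0
  have hr0 : 0 < r := by linarith
  refine hasDerivAt_tsum_of_isPreconnected (𝕜 := ℝ) (F := ℝ) (u := fun m : ℕ =>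
      ((m:ℝ)+1) * (r*u)^m) (t := Set.Ioo (-r) r) (y₀ := 0)
      (g := fun m t => w m / ((m:ℝ)+1) * t^(m+1)) (g' := fun m t => w m * t^m)
      (sum1 hρ hru) isOpen_Ioo isPreconnected_Ioo ?_ ?_ ⟨by linarith, by linarith⟩ ?_ ?_
  · intro m y _
    have h1 := (hasDerivAt_pow (m+1) y).const_mul (w m / ((m:ℝ)+1))
    have h2 : (0:ℝ) < (m:ℝ)+1 := by positivity
    refine hcd h1 ?_
    simp only [Nat.add_sub_cancel]
    push_cast
    field_simp
  · intro m y hy
    have hy' : |y| ≤ r := abs_le.mpr ⟨hy.1.le, hy.2.le⟩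
    have h1 := h.bd m
    have h2 : |y|^m ≤ r^m := pow_le_pow_left₀ (abs_nonneg _) hy' m
    have h3 : (0:ℝ) ≤ u^m := pow_nonneg h.u0 m
    rw [norm_mul, norm_pow, Real.norm_eq_abs, Real.norm_eq_abs, mul_pow]
    calc |w m| * |y|^m ≤ (((m:ℝ)+1) * u^m) * r^m :=
          mul_le_mul h1 h2 (by positivity) (by positivity)
      _ = _ := by ring
  · apply sumG h hr hru
    rw [abs_zero]; exact hr0.le
  · exact ⟨by linarith [(abs_lt.mp ht).1], (abs_lt.mp ht).2⟩

/-- the differential equation -/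
theorem ode {a d s : ℝ} (w0 : w 0 = 1) (w1 : w 1 = a - s * d)
    (hrec : ∀ m : ℕ, ((m:ℝ)+2) * w (m+2) - a * (2*m+3) * w (m+1) + d^2 * (m+1) * w m
      - s^2 * d^2 * (w m / (m+1)) = 0) {t : ℝ} (ht : |t| < r) :
    (1 - 2*a*t + d^2*t^2) * (∑' m : ℕ, ((m:ℝ)+1) * w (m+1) * t^m) +
      (-a + d^2 * t) * (∑' m : ℕ, w m * t^m) +
      s * d * (1 - s * d * ∑' m : ℕ, w m / ((m:ℝ)+1) * t^(m+1)) = 0 := by
  set f1 := ∑' m : ℕ, ((m:ℝ)+1) * w (m+1) * t^m with hf1
  set f0 := ∑' m : ℕ, w m * t^m with hf0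
  set fg := ∑' m : ℕ, w m / ((m:ℝ)+1) * t^(m+1) with hfg
  have H1 : HasSum (fun m : ℕ => ((m:ℝ)+1) * w (m+1) * t^m) f1 := (sumwd h hr hru ht.le).hasSum
  have H0 : HasSum (fun m : ℕ => w m * t^m) f0 := (sumw h hr hru ht.le).hasSum
  have Hg : HasSum (fun m : ℕ => w m / ((m:ℝ)+1) * t^(m+1)) fg := (sumG h hr hru ht.le).hasSum
  have Ha : HasSum (fun m : ℕ => ((m:ℝ)+2) * w (m+2) * t^(m+1)) (f1 - w 1) := by
    have := (hasSum_nat_add_iff' 1).mpr H1
    simp only [Finset.sum_range_one, Nat.cast_zero, zero_add, pow_zero, one_mul, mul_one] at this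
    refine this.congr_fun ?_ |> fun h => h
    intro m
    push_cast
    ring
  have Hb : HasSum (fun m : ℕ => ((m:ℝ)+1) * w (m+1) * t^(m+1)) (t * f1) := by
    refine (H1.mul_left t).congr_fun ?_
    intro m
    ring
  have Hc0 : HasSum (fun m : ℕ => (m:ℝ) * w m * t^m) (t * f1) := by
    rw [← hasSum_nat_add_iff' 1]
    simp only [Finset.sum_range_one, Nat.cast_zero, zero_mul, sub_zero]
    refine Hb.congr_fun ?_
    intro m
    push_cast
    ring
  have Hc : HasSum (fun m : ℕ => (m:ℝ) * w m * t^(m+1)) (t * (t * f1)) := by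
    refine (Hc0.mul_left t).congr_fun ?_
    intro m
    ring
  have Hd : HasSum (fun m : ℕ => w (m+1) * t^(m+1)) (f0 - w 0) := by
    have := (hasSum_nat_add_iff' 1).mpr H0
    simp only [Finset.sum_range_one, pow_zero, mul_one] at this
    exact this
  have He : HasSum (fun m : ℕ => w m * t^(m+1)) (t * f0) := by
    refine (H0.mul_left t).congr_fun ?_
    intro m
    ring
  have HH := (((((Ha.sub (Hb.mul_left (2*a))).add (Hc.mul_left (d^2))).sub
    (Hd.mul_left a)).add (He.mul_left (d^2))).sub (Hg.mul_left (s^2*d^2)))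
  have HZ : HasSum (fun _ : ℕ => (0:ℝ)) 0 := hasSum_zero
  have hz : ∀ m : ℕ, ((m:ℝ)+2) * w (m+2) * t^(m+1) - 2*a*(((m:ℝ)+1) * w (m+1) * t^(m+1)) +
      d^2 * ((m:ℝ) * w m * t^(m+1)) - a * (w (m+1) * t^(m+1)) + d^2 * (w m * t^(m+1)) -
      s^2*d^2*(w m / ((m:ℝ)+1) * t^(m+1)) = 0 := by
    intro m
    have := hrec m
    linear_combination t^(m+1) * this
  have HH2 : HasSum (fun _ : ℕ => (0:ℝ)) (f1 - w 1 - 2*a*(t*f1) + d^2*(t*(t*f1)) - a * (f0 - w 0) +
      d^2 * (t * f0) - s^2*d^2*fg) := by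
    refine HH.congr_fun ?_
    intro m
    exact (hz m).symm
  have hu := HH2.unique HZ
  rw [w0, w1] at hu
  linear_combination hu

end

/-- the solution of the differential equation -/
theorem main0 {w : ℕ → ℝ} {u v a d s : ℝ} (h : Co w u) (hv0 : 0 ≤ v) (hvu : v ≤ u)
    (huv : u + v = 2 * a) (huvd : u * v = d^2)
    (w0 : w 0 = 1) (w1 : w 1 = a - s * d)
    (hrec : ∀ m : ℕ, ((m:ℝ)+2) * w (m+2) - a * (2*m+3) * w (m+1) + d^2 * (m+1) * w m
      - s^2 * d^2 * (w m / (m+1)) = 0) :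
    0 < 1 - 2*a + d^2 ∧ 0 < (1 - d + Real.sqrt (1 - 2*a + d^2))/2 ∧
    0 < (1 + d + Real.sqrt (1 - 2*a + d^2))/2 ∧
    HasSum w (Real.exp (s * (Real.log ((1 - d + Real.sqrt (1 - 2*a + d^2))/2) -
      Real.log ((1 + d + Real.sqrt (1 - 2*a + d^2))/2))) / Real.sqrt (1 - 2*a + d^2)) := by
  have hu0 := h.u0
  have hu1 := h.u1
  -- radius
  obtain ⟨r, hr, hru⟩ : ∃ r : ℝ, 1 < r ∧ r * u < 1 := by
    refine ⟨2 / (1 + u), ?_, ?_⟩
    · rw [lt_div_iff₀ (by linarith)]; linarith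
    · rw [div_mul_eq_mul_div, div_lt_one (by linarith)]; linarith
  have hd : |d| < 1 := by
    rw [← sq_lt_one_iff_abs_lt_one, ← huvd]
    nlinarith
  have hd1 := (abs_lt.mp hd).1
  have hd2 := (abs_lt.mp hd).2
  have hQ : ∀ t : ℝ, 0 ≤ t → t ≤ 1 → 0 < 1 - 2*a*t + d^2*t^2 := by
    intro t h0 h1
    have e : 1 - 2*a*t + d^2*t^2 = (1 - u*t) * (1 - v*t) := by
      rw [← huv, ← huvd]; ring
    rw [e]
    apply mul_pos
    · nlinarith
    · nlinarith
  set Q : ℝ → ℝ := fun t => 1 - 2*a*t + d^2*t^2 with hQd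
  set R : ℝ → ℝ := fun t => Real.sqrt (Q t) with hRd
  have hR : ∀ t : ℝ, 0 ≤ t → t ≤ 1 → 0 < R t := fun t h0 h1 => Real.sqrt_pos.mpr (hQ t h0 h1)
  have hRR : ∀ t : ℝ, 0 ≤ t → t ≤ 1 → R t * R t = Q t := fun t h0 h1 =>
    Real.mul_self_sqrt (hQ t h0 h1).le
  have hdR : ∀ t : ℝ, 0 ≤ t → t ≤ 1 → HasDerivAt R ((-a + d^2*t) / R t) t := by
    intro t h0 h1
    have hq : HasDerivAt Q (2*(-a + d^2*t)) t := by
      have := ((hasDerivAt_const t (1:ℝ)).sub ((hasDerivAt_id t).const_mul (2*a))).add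
        ((hasDerivAt_pow 2 t).const_mul (d^2))
      refine hcd this ?_
      simp
      ring
    have := hq.sqrt (hQ t h0 h1).ne'
    refine hcd this ?_
    have hp := hR t h0 h1
    show _ = 2 * (-a + d^2*t) / (2 * R t)
    field_simp
  set X : ℝ → ℝ := fun t => (1 - d*t + R t)/2 with hXd
  set Y : ℝ → ℝ := fun t => (1 + d*t + R t)/2 with hYd
  have hX : ∀ t : ℝ, 0 ≤ t → t ≤ 1 → 0 < X t := by
    intro t h0 h1
    have := hR t h0 h1
    show 0 < (1 - d*t + R t)/2
    nlinarith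
  have hY : ∀ t : ℝ, 0 ≤ t → t ≤ 1 → 0 < Y t := by
    intro t h0 h1
    have := hR t h0 h1
    show 0 < (1 + d*t + R t)/2
    nlinarith
  set g : ℝ → ℝ := fun t => Real.exp (s * (Real.log (X t) - Real.log (Y t))) with hgd
  have hgpos : ∀ t, 0 < g t := fun t => Real.exp_pos _
  have hdg : ∀ t : ℝ, 0 ≤ t → t ≤ 1 → HasDerivAt g (-(s*d/R t) * g t) t := by
    intro t h0 h1
    have rp := hR t h0 h1
    have xp := hX t h0 h1
    have yp := hY t h0 h1
    have dX : HasDerivAt X ((-d + (-a + d^2*t)/R t)/2) t := by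
      have := (((hasDerivAt_const t (1:ℝ)).sub ((hasDerivAt_id t).const_mul d)).add
        (hdR t h0 h1)).div_const 2
      refine hcd this ?_
      simp
    have dY : HasDerivAt Y ((d + (-a + d^2*t)/R t)/2) t := by
      have := (((hasDerivAt_const t (1:ℝ)).add ((hasDerivAt_id t).const_mul d)).add
        (hdR t h0 h1)).div_const 2
      refine hcd this ?_
      simp
    have dL := (((dX.log xp.ne').sub (dY.log yp.ne')).const_mul s).exp
    refine hcd dL ?_
    have hxy : X t * Y t = (1 + R t - a*t)/2 := by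
      have := hRR t h0 h1
      show (1 - d*t + R t)/2 * ((1 + d*t + R t)/2) = _
      have e : R t * R t = 1 - 2*a*t + d^2*t^2 := this
      linear_combination (1/4) * e
    have e2 : (-d + (-a + d^2*t)/R t)/2 / X t - (d + (-a + d^2*t)/R t)/2 / Y t = -(d / R t) := by
      have e : R t * R t = 1 - 2*a*t + d^2*t^2 := hRR t h0 h1
      rw [div_sub_div _ _ xp.ne' yp.ne', hxy]
      have hp : 0 < (1 + R t - a*t)/2 := by rw [← hxy]; positivity
      rw [div_eq_iff hp.ne']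
      show (-d + (-a + d^2*t)/R t)/2 * ((1 + d*t + R t)/2) -
        (1 - d*t + R t)/2 * ((d + (-a + d^2*t)/R t)/2) = _
      field_simp
      linear_combination (-2*d) * e
    show -(s*d/R t) * g t = Real.exp (s * (Real.log (X t) - Real.log (Y t))) * (s * _)
    rw [e2]
    show -(s*d/R t) * g t = g t * _
    ring
  -- the series
  set f : ℝ → ℝ := fun t => ∑' m : ℕ, w m * t^m with hfd
  set V : ℝ → ℝ := fun t => 1 - s * d * ∑' m : ℕ, w m / ((m:ℝ)+1) * t^(m+1) with hVd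
  have habs : ∀ t : ℝ, 0 ≤ t → t ≤ 1 → |t| < r := by
    intro t h0 h1
    rw [abs_of_nonneg h0]; linarith
  have hdV : ∀ t : ℝ, 0 ≤ t → t ≤ 1 → HasDerivAt V (-(s*d) * f t) t := by
    intro t h0 h1
    have := ((derG h hr hru (habs t h0 h1)).const_mul (s*d)).const_sub 1
    refine hcd this ?_
    show -(s*d) * f t = -(s*d*f t)
    ring
  set p : ℝ → ℝ := fun t => R t * f t with hpd
  have hdp : ∀ t : ℝ, 0 ≤ t → t ≤ 1 → HasDerivAt p (-(s*d/R t) * V t) t := by
    intro t h0 h1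
    have rp := hR t h0 h1
    have := (hdR t h0 h1).mul (derF h hr hru (habs t h0 h1))
    refine hcd this ?_
    have ho := ode h hr hru w0 w1 hrec (habs t h0 h1)
    have e : R t * R t = 1 - 2*a*t + d^2*t^2 := hRR t h0 h1
    set f1 := ∑' m : ℕ, ((m:ℝ)+1) * w (m+1) * t^m
    show -(s*d/R t) * V t = (-a + d^2*t)/R t * f t + R t * f1
    have ho' : (1 - 2*a*t + d^2*t^2) * f1 + (-a + d^2*t) * f t + s * d * V t = 0 := ho
    field_simp
    rw [← e] at ho'
    linear_combination (-1) * ho'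
  have hdV' : ∀ t : ℝ, 0 ≤ t → t ≤ 1 → HasDerivAt V (-(s*d/R t) * p t) t := by
    intro t h0 h1
    have rp := hR t h0 h1
    refine hcd (hdV t h0 h1) ?_
    show -(s*d/R t) * (R t * f t) = _
    field_simp
  -- constants of motion
  have c1 : ∀ t ∈ Set.Icc (0:ℝ) 1, (fun t => (p t - V t) * g t) t = (fun t => (p t - V t) * g t) 0 := by
    have hder : ∀ t : ℝ, 0 ≤ t → t ≤ 1 → HasDerivAt (fun t => (p t - V t) * g t) 0 t := by
      intro t h0 h1
      have := ((hdp t h0 h1).sub (hdV' t h0 h1)).mul (hdg t h0 h1)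
      refine hcd this ?_
      show (0:ℝ) = (-(s*d/R t) * V t - -(s*d/R t) * p t) * g t +
        (p t - V t) * (-(s*d/R t) * g t)
      ring
    apply constant_of_has_deriv_right_zero
    · intro t ht
      exact (hder t ht.1 ht.2).continuousAt.continuousWithinAt
    · intro t ht
      exact (hder t ht.1 ht.2.le).hasDerivWithinAt
  have c2 : ∀ t ∈ Set.Icc (0:ℝ) 1, (fun t => (p t + V t) / g t) t = (fun t => (p t + V t) / g t) 0 := by
    have hder : ∀ t : ℝ, 0 ≤ t → t ≤ 1 → HasDerivAt (fun t => (p t + V t) / g t) 0 t := by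
      intro t h0 h1
      have := ((hdp t h0 h1).add (hdV' t h0 h1)).div (hdg t h0 h1) (hgpos t).ne'
      refine hcd this ?_
      show (0:ℝ) = ((-(s*d/R t) * V t + -(s*d/R t) * p t) * g t -
        (p t + V t) * (-(s*d/R t) * g t)) / g t ^ 2
      ring
    apply constant_of_has_deriv_right_zero
    · intro t ht
      exact (hder t ht.1 ht.2).continuousAt.continuousWithinAt
    · intro t ht
      exact (hder t ht.1 ht.2.le).hasDerivWithinAt
  have R0 : R 0 = 1 := by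
    show Real.sqrt (1 - 2*a*0 + d^2*0^2) = 1
    simp
  have f0 : f 0 = 1 := by
    show ∑' m : ℕ, w m * (0:ℝ)^m = 1
    rw [tsum_eq_single 0]
    · simp [w0]
    · intro m hm
      simp [hm]
  have V0 : V 0 = 1 := by
    show 1 - s * d * ∑' m : ℕ, w m / ((m:ℝ)+1) * (0:ℝ)^(m+1) = 1
    simp
  have g0 : g 0 = 1 := by
    show Real.exp (s * (Real.log ((1 - d*0 + R 0)/2) - Real.log ((1 + d*0 + R 0)/2))) = 1
    rw [R0]
    norm_num
  have p0 : p 0 = 1 := by
    show R 0 * f 0 = 1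
    rw [R0, f0, one_mul]
  have k1 := c1 1 ⟨zero_le_one, le_refl _⟩
  have k2 := c2 1 ⟨zero_le_one, le_refl _⟩
  simp only [p0, V0, g0] at k1 k2
  have gp := hgpos 1
  have k3 : p 1 = V 1 := by
    have : (p 1 - V 1) * g 1 = 0 := by rw [k1]; ring
    rcases mul_eq_zero.mp this with h | h
    · linarith
    · exact absurd h gp.ne'
  have k4 : p 1 = g 1 := by
    rw [div_eq_iff gp.ne'] at k2
    rw [← k3] at k2
    linarith
  have hR1 : R 1 = Real.sqrt (1 - 2*a + d^2) := by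
    show Real.sqrt (1 - 2*a*1 + d^2*1^2) = _
    congr 1
    ring
  have rp := hR 1 zero_le_one (le_refl _)
  refine ⟨?_, ?_, ?_, ?_⟩
  · have := hQ 1 zero_le_one (le_refl _)
    linarith
  · rw [← hR1]
    have := hX 1 zero_le_one (le_refl _)
    have e : X 1 = (1 - d*1 + R 1)/2 := rfl
    rw [e] at this
    linarith
  · rw [← hR1]
    have := hY 1 zero_le_one (le_refl _)
    have e : Y 1 = (1 + d*1 + R 1)/2 := rfl
    rw [e] at this
    linarith
  · rw [← hR1]
    have hs : HasSum (fun m => w m * (1:ℝ)^m) (f 1) :=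
      (sumw h hr hru (habs 1 zero_le_one (le_refl _)).le).hasSum
    simp only [one_pow, mul_one] at hs
    have e1 : f 1 = g 1 / R 1 := by
      rw [eq_div_iff rp.ne', ← k4]
      show f 1 * R 1 = R 1 * f 1
      ring
    rw [e1] at hs
    have e2 : g 1 = Real.exp (s * (Real.log ((1 - d + R 1)/2) - Real.log ((1 + d + R 1)/2))) := by
      show Real.exp (s * (Real.log ((1 - d*1 + R 1)/2) - Real.log ((1 + d*1 + R 1)/2))) = _
      rw [mul_one]
    rw [e2] at hs
    exact hs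

/-- discriminant -/
noncomputable def rr (A B : ℝ) : ℝ := Real.sqrt ((1 + A - B)^2 - 4*A)

/-- the smaller root of `x² - (1+A-B) x + A` -/
noncomputable def x1 (A B : ℝ) : ℝ := ((1 + A - B) - rr A B) / 2

/-- the larger root -/
noncomputable def x2 (A B : ℝ) : ℝ := ((1 + A - B) + rr A B) / 2

theorem main (A B : ℝ) (hA : 0 < A) (hB : 0 < B) (hAB : Real.sqrt A + Real.sqrt B < 1) :
    HasSum (wp A B) ((1 - x1 A B)^((1:ℝ)/3) * (x2 A B)^(-(1:ℝ)/3) / (x2 A B - x1 A B)) := by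
  have sA := Real.sqrt_pos.mpr hA
  have sB := Real.sqrt_pos.mpr hB
  have qA := Real.sq_sqrt hA.le
  have qB := Real.sq_sqrt hB.le
  have hco : Co (wp A B) ((Real.sqrt A + Real.sqrt B)^2) := by
    refine ⟨by positivity, ?_, ?_⟩
    · nlinarith
    · intro m
      rw [abs_of_nonneg (wp_nonneg hA hB m)]
      exact wp_le hA hB m
  have key := main0 (v := (Real.sqrt A - Real.sqrt B)^2) (a := A + B) (d := A - B) (s := 1/3)
    hco (by positivity) (by nlinarith [mul_pos sA sB]) (by nlinarith) (by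
      have : ((Real.sqrt A + Real.sqrt B)^2) * ((Real.sqrt A - Real.sqrt B)^2) =
        ((Real.sqrt A)^2 - (Real.sqrt B)^2)^2 := by ring
      rw [this, qA, qB]) (wp_zero A B) (wp_one A B) (wp_rec A B)
  have er : rr A B = Real.sqrt (1 - 2*(A+B) + (A-B)^2) := by
    unfold rr
    congr 1
    ring
  rw [← er] at key
  obtain ⟨h1, h2, h3, h4⟩ := key
  have ex1 : 1 - x1 A B = (1 - (A-B) + rr A B)/2 := by unfold x1; ring
  have ex2 : x2 A B = (1 + (A-B) + rr A B)/2 := by unfold x2; ring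
  have ex3 : x2 A B - x1 A B = rr A B := by unfold x1 x2; ring
  rw [ex3, ex1, ex2, Real.rpow_def_of_pos h2, Real.rpow_def_of_pos h3, ← Real.exp_add]
  have e : Real.log ((1 - (A-B) + rr A B)/2) * ((1:ℝ)/3) +
      Real.log ((1 + (A-B) + rr A B)/2) * (-(1:ℝ)/3) =
      1/3 * (Real.log ((1 - (A-B) + rr A B)/2) - Real.log ((1 + (A-B) + rr A B)/2)) := by ring
  rw [e]
  exact h4

end Pool.Agent.NH97.WI
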