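import Mathlib

/-!
Parameters for project FD (helper97): elementary inequalities.
-/

namespace Pool.Agent.NH97.FDNum

open Filter

/-- `(n+1)^a` is eventually large compared with constants and the logarithm -/
theorem ev (a : ℝ) (ha : 0 < a) (K : ℝ) : ∃ n0 : ℕ, ∀ n : ℕ, n0 ≤ n →
    K ≤ ((n : ℝ) + 1) ^ a ∧ K * Real.log ((n : ℝ) + 1) ≤ ((n : ℝ) + 1) ^ a := by
  have ht : Tendsto (fun n : ℕ => (n : ℝ) + 1) atTop atTop :=
    tendsto_atTop_add_const_right _ _ tendsto_natCast_atTop_atTop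
  have h1 : ∀ᶠ n : ℕ in atTop, K ≤ ((n : ℝ) + 1) ^ a :=
    ((tendsto_rpow_atTop ha).comp ht).eventually_ge_atTop K
  have h2 : ∀ᶠ n : ℕ in atTop, K * Real.log ((n : ℝ) + 1) ≤ ((n : ℝ) + 1) ^ a := by
    have h := (isLittleO_log_rpow_atTop ha).bound (c := 1 / (|K| + 1)) (by positivity)
    have h' := ht.eventually h
    filter_upwards [h'] with n hn
    have hN : (1:ℝ) ≤ (n : ℝ) + 1 := by
      have : (0:ℝ) ≤ n := by positivity
      linarith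
    have hl : 0 ≤ Real.log ((n : ℝ) + 1) := Real.log_nonneg hN
    have hx : 0 < ((n : ℝ) + 1) ^ a := Real.rpow_pos_of_pos (by linarith) a
    rw [Real.norm_of_nonneg hl, Real.norm_of_nonneg hx.le] at hn
    have hK : 0 < |K| + 1 := by positivity
    calc K * Real.log ((n : ℝ) + 1) ≤ (|K| + 1) * Real.log ((n : ℝ) + 1) := by
          apply mul_le_mul_of_nonneg_right _ hl
          linarith [le_abs_self K]
      _ ≤ (|K| + 1) * (1 / (|K| + 1) * ((n : ℝ) + 1) ^ a) :=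
          mul_le_mul_of_nonneg_left hn hK.le
      _ = ((n : ℝ) + 1) ^ a := by field_simp
  obtain ⟨n0, h0⟩ := (h1.and h2).exists_forall_of_atTop
  exact ⟨n0, h0⟩

theorem two_a {N : ℝ} (hN : 1 ≤ N) (a : ℝ) : N ^ (2 * a) = (N ^ a) ^ 2 := by
  rw [← Real.rpow_natCast (N ^ a) 2, ← Real.rpow_mul (by linarith)]
  congr 1
  push_cast
  ring

theorem neg_a {N : ℝ} (hN : 1 ≤ N) (a : ℝ) : N ^ (-a) = (N ^ a)⁻¹ := Real.rpow_neg (by linarith) a

theorem hyp {N a Mr : ℝ} (hN : 1 ≤ N) (hM : 1 ≤ Mr) (h : Mr ≤ N ^ (1 / 2 - 7 * a)) :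
    Mr ^ 2 * (N ^ a) ^ 14 ≤ N := by
  have hN0 : 0 < N := by linarith
  have e : (N ^ (1 / 2 - 7 * a)) ^ 2 * (N ^ a) ^ 14 = N := by
    rw [← Real.rpow_natCast (N ^ a) 14, ← Real.rpow_natCast (N ^ (1 / 2 - 7 * a)) 2,
      ← Real.rpow_mul hN0.le, ← Real.rpow_mul hN0.le, ← Real.rpow_add hN0]
    have : (1 / 2 - 7 * a) * ((2:ℕ):ℝ) + a * ((14:ℕ):ℝ) = 1 := by push_cast; ring
    rw [this, Real.rpow_one]
  have hx : 0 < N ^ a := Real.rpow_pos_of_pos hN0 a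
  calc Mr ^ 2 * (N ^ a) ^ 14 ≤ (N ^ (1 / 2 - 7 * a)) ^ 2 * (N ^ a) ^ 14 := by
        apply mul_le_mul_of_nonneg_right _ (by positivity)
        exact pow_le_pow_left₀ (by linarith) h 2
    _ = N := e

theorem pow_J {N a : ℝ} (hN : 1 ≤ N) (J : ℕ) (h : 3 ≤ a * J) : N ^ 3 ≤ (N ^ a) ^ J := by
  rw [← Real.rpow_natCast (N ^ a) J, ← Real.rpow_natCast N 3, ← Real.rpow_mul (by linarith)]
  apply Real.rpow_le_rpow_of_exponent_le hN
  push_cast
  exact h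

section
variable {N x Mr C : ℝ}

theorem k1 {D : ℝ} {i : ℕ} (hx : 1 ≤ x) (hM : 1 ≤ Mr) (hH : Mr ^ 2 * x ^ 14 ≤ N)
    (hD : D ≤ x) (hi : i + 1 ≤ 14) : D * Mr ^ 2 * x ^ i ≤ N := by
  have hx0 : 0 < x := by linarith
  have hM0 : 0 < Mr := by linarith
  calc D * Mr ^ 2 * x ^ i ≤ x * Mr ^ 2 * x ^ i := by
        apply mul_le_mul_of_nonneg_right _ (by positivity)
        exact mul_le_mul_of_nonneg_right hD (by positivity)
    _ = Mr ^ 2 * x ^ (i + 1) := by ring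
    _ ≤ Mr ^ 2 * x ^ 14 := by
        apply mul_le_mul_of_nonneg_left _ (by positivity)
        exact pow_le_pow_right₀ hx hi
    _ ≤ N := hH

theorem q_le (hx : 1 ≤ x) (hM : 1 ≤ Mr) : (⌈Mr * x ^ 2⌉₊ : ℝ) ≤ 2 * Mr * x ^ 2 := by
  have h1 : (1:ℝ) ≤ Mr * x ^ 2 := by
    have : (1:ℝ) ≤ x ^ 2 := one_le_pow₀ hx
    nlinarith
  have h2 := Nat.ceil_lt_add_one (a := Mr * x ^ 2) (by linarith)
  linarith

end

end Pool.Agent.NH97.FDNum
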