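import Mathlib

/-!
Algebraic generating function (helper97), part 1: coefficients, recurrence, bound.
-/

namespace Pool.Agent.NH97.WI

open Finset

/-- rising factorial -/
noncomputable def rf (s : ℝ) (n : ℕ) : ℝ := ∏ i ∈ Finset.range n, (s + i)

/-- coefficients of `∑ w_m` (the algebraic function) -/
noncomputable def wp (A B : ℝ) (m : ℕ) : ℝ := ∑ i ∈ Finset.range (m+1),
  rf (4/3) m * rf (2/3) m / (rf (2/3) i * (Nat.factorial i : ℝ) * (rf (4/3) (m-i) *
    (Nat.factorial (m-i) : ℝ))) * B^i * A^(m-i)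

theorem rf_succ (s : ℝ) (n : ℕ) : rf s (n+1) = rf s n * (s + n) := by
  simp [rf, Finset.prod_range_succ]

theorem rf_pos {s : ℝ} (hs : 0 < s) (n : ℕ) : 0 < rf s n := by
  unfold rf
  apply Finset.prod_pos
  intro i _
  positivity

/-- B-part -/
noncomputable def cb (B : ℝ) (i : ℕ) : ℝ := B^i / (rf (2/3) i * (Nat.factorial i : ℝ))
/-- A-part -/
noncomputable def ca (A : ℝ) (l : ℕ) : ℝ := A^l / (rf (4/3) l * (Nat.factorial l : ℝ))

theorem cb_succ (B : ℝ) (i : ℕ) : B * cb B i = ((i:ℝ)+1) * (i+2/3) * cb B (i+1) := by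
  have h1 := rf_pos (s := 2/3) (by norm_num) i
  have h2 : (0:ℝ) < (Nat.factorial i : ℝ) := by positivity
  have h3 : (0:ℝ) < 2/3 + (i:ℝ) := by positivity
  have h4 : (0:ℝ) < (i:ℝ) + 1 := by positivity
  unfold cb
  rw [rf_succ, Nat.factorial_succ]
  push_cast
  field_simp
  ring

theorem ca_succ (A : ℝ) (l : ℕ) : A * ca A l = ((l:ℝ)+1) * (l+4/3) * ca A (l+1) := by
  have h1 := rf_pos (s := 4/3) (by norm_num) l
  have h2 : (0:ℝ) < (Nat.factorial l : ℝ) := by positivity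
  have h3 : (0:ℝ) < 4/3 + (l:ℝ) := by positivity
  have h4 : (0:ℝ) < (l:ℝ) + 1 := by positivity
  unfold ca
  rw [rf_succ, Nat.factorial_succ]
  push_cast
  field_simp
  ring

/-- weighted convolution -/
noncomputable def T (A B : ℝ) (m : ℕ) (φ : ℝ → ℝ → ℝ) : ℝ :=
  ∑ p ∈ Finset.HasAntidiagonal.antidiagonal m, φ ((p.1 : ℕ) : ℝ) ((p.2 : ℕ) : ℝ) * (cb B p.1 * ca A p.2)

theorem shiftB (A B : ℝ) (m : ℕ) (φ : ℝ → ℝ → ℝ) :
    B * T A B m φ = T A B (m+1) (fun i l => i * (i - 1/3) * φ (i-1) l) := by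
  unfold T
  rw [Finset.Nat.sum_antidiagonal_succ, Finset.mul_sum]
  have h0 : ((0:ℕ):ℝ) * (((0:ℕ):ℝ) - 1/3) * φ (((0:ℕ):ℝ)-1) ((m+1:ℕ):ℝ) *
    (cb B 0 * ca A (m+1)) = 0 := by simp
  rw [h0, zero_add]
  apply Finset.sum_congr rfl
  rintro ⟨i, l⟩ _
  simp only
  have h := cb_succ B i
  have e1 : ((i+1:ℕ):ℝ) - 1 = i := by push_cast; ring
  rw [e1]
  calc B * (φ i l * (cb B i * ca A l)) = φ i l * (B * cb B i) * ca A l := by ring
    _ = _ := by rw [h]; push_cast; ring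

theorem shiftA (A B : ℝ) (m : ℕ) (φ : ℝ → ℝ → ℝ) :
    A * T A B m φ = T A B (m+1) (fun i l => l * (l + 1/3) * φ i (l-1)) := by
  unfold T
  rw [Finset.Nat.sum_antidiagonal_succ', Finset.mul_sum]
  have h0 : ((0:ℕ):ℝ) * (((0:ℕ):ℝ) + 1/3) * φ ((m+1:ℕ):ℝ) (((0:ℕ):ℝ)-1) *
    (cb B (m+1) * ca A 0) = 0 := by simp
  rw [h0, zero_add]
  apply Finset.sum_congr rfl
  rintro ⟨i, l⟩ _
  simp only
  have h := ca_succ A l
  have e1 : ((l+1:ℕ):ℝ) - 1 = l := by push_cast; ring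
  rw [e1]
  calc A * (φ i l * (cb B i * ca A l)) = φ i l * (A * ca A l) * cb B i := by ring
    _ = _ := by rw [h]; push_cast; ring

theorem T_add (A B : ℝ) (m : ℕ) (φ ψ : ℝ → ℝ → ℝ) :
    T A B m φ + T A B m ψ = T A B m (fun i l => φ i l + ψ i l) := by
  unfold T
  rw [← Finset.sum_add_distrib]
  apply Finset.sum_congr rfl
  intro p _
  ring

theorem T_sub (A B : ℝ) (m : ℕ) (φ ψ : ℝ → ℝ → ℝ) :
    T A B m φ - T A B m ψ = T A B m (fun i l => φ i l - ψ i l) := by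
  unfold T
  rw [← Finset.sum_sub_distrib]
  apply Finset.sum_congr rfl
  intro p _
  ring

theorem T_smul (A B : ℝ) (m : ℕ) (c : ℝ) (φ : ℝ → ℝ → ℝ) :
    c * T A B m φ = T A B m (fun i l => c * φ i l) := by
  unfold T
  rw [Finset.mul_sum]
  apply Finset.sum_congr rfl
  intro p _
  ring

theorem T_zero (A B : ℝ) (m : ℕ) (φ : ℝ → ℝ → ℝ) (h : ∀ i l : ℝ, i + l = m → φ i l = 0) :
    T A B m φ = 0 := by
  unfold T
  apply Finset.sum_eq_zero
  rintro ⟨i, l⟩ hp
  have : i + l = m := by simpa using hp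
  have h2 : (i:ℝ) + l = m := by exact_mod_cast this
  simp only
  rw [h i l h2, zero_mul]

theorem wp_eq (A B : ℝ) (m : ℕ) :
    wp A B m = rf (4/3) m * rf (2/3) m * T A B m (fun _ _ => 1) := by
  unfold wp T
  rw [Finset.Nat.sum_antidiagonal_eq_sum_range_succ_mk, Finset.mul_sum]
  apply Finset.sum_congr rfl
  intro i _
  unfold ca cb
  simp only
  have h1 := rf_pos (s := 4/3) (by norm_num) (m-i)
  have h2 := rf_pos (s := 2/3) (by norm_num) i
  have h3 : (0:ℝ) < (Nat.factorial i : ℝ) := by positivity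
  have h4 : (0:ℝ) < (Nat.factorial (m-i) : ℝ) := by positivity
  field_simp

theorem Trec (A B : ℝ) (m : ℕ) :
    ((m:ℝ)+1) * (m+2) * ((m+2)^2 - 1/9) * T A B (m+2) (fun _ _ => 1) =
      (A + B) * ((m+1) * (2*m+3)) * T A B (m+1) (fun _ _ => 1) -
        (A - B)^2 * T A B m (fun _ _ => 1) := by
  have e1 : (A + B) * T A B (m+1) (fun _ _ => 1) =
      T A B (m+2) (fun i l => i * (i - 1/3) + l * (l + 1/3)) := by
    rw [add_mul, shiftA, shiftB, T_add]
    unfold T
    apply Finset.sum_congr rfl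
    intro p _
    ring
  have e2 : (A - B) * T A B m (fun _ _ => 1) =
      T A B (m+1) (fun i l => l * (l + 1/3) - i * (i - 1/3)) := by
    rw [sub_mul, shiftA, shiftB, T_sub]
    unfold T
    apply Finset.sum_congr rfl
    intro p _
    ring
  have e3 : (A - B)^2 * T A B m (fun _ _ => 1) =
      T A B (m+2) (fun i l => l * (l + 1/3) * ((l-1) * (l - 1 + 1/3) - i * (i - 1/3)) -
        i * (i - 1/3) * (l * (l + 1/3) - (i-1) * (i - 1 - 1/3))) := by
    rw [sq, mul_assoc, e2, sub_mul, shiftA, shiftB, T_sub]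
  have e4 : (A + B) * ((m+1) * (2*m+3)) * T A B (m+1) (fun _ _ => 1) =
      T A B (m+2) (fun i l => ((m:ℝ)+1) * (2*m+3) * (i * (i - 1/3) + l * (l + 1/3))) := by
    rw [← T_smul, ← e1]
    ring
  rw [e3, e4, T_smul, T_sub, ← sub_eq_zero, T_sub]
  apply T_zero
  intro i l h
  have hm : (m:ℝ) = i + l - 2 := by
    rw [h]; push_cast; ring
  rw [hm]
  ring

theorem wp_zero (A B : ℝ) : wp A B 0 = 1 := by
  simp [wp, rf]

theorem wp_one (A B : ℝ) : wp A B 1 = (A + B) - 1/3 * (A - B) := by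
  simp [wp, rf, Finset.sum_range_succ, Finset.prod_range_succ]
  ring

theorem wp_rec (A B : ℝ) (m : ℕ) :
    ((m:ℝ)+2) * wp A B (m+2) - (A+B) * (2*m+3) * wp A B (m+1) + (A-B)^2 * (m+1) * wp A B m
      - (1/3)^2 * (A-B)^2 * (wp A B m / (m+1)) = 0 := by
  have h := Trec A B m
  have hm : (0:ℝ) < (m:ℝ) + 1 := by positivity
  rw [wp_eq, wp_eq, wp_eq]
  set t2 := T A B (m+2) (fun _ _ => 1)
  set t1 := T A B (m+1) (fun _ _ => 1)
  set t0 := T A B m (fun _ _ => 1)
  have k1 : rf (4/3) (m+1) * rf (2/3) (m+1) = rf (4/3) m * rf (2/3) m * (((m:ℝ)+1)^2 - 1/9) := by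
    rw [rf_succ, rf_succ]; ring
  have k2 : rf (4/3) (m+2) * rf (2/3) (m+2) = rf (4/3) m * rf (2/3) m *
      (((m:ℝ)+1)^2 - 1/9) * (((m:ℝ)+2)^2 - 1/9) := by
    rw [rf_succ, rf_succ, rf_succ, rf_succ]; push_cast; ring
  rw [k1, k2]
  have : ((m:ℝ)+1) * (((m:ℝ)+2) * (rf (4/3) m * rf (2/3) m *
      (((m:ℝ)+1)^2 - 1/9) * (((m:ℝ)+2)^2 - 1/9) * t2) - (A+B) * (2*m+3) *
      (rf (4/3) m * rf (2/3) m * (((m:ℝ)+1)^2 - 1/9) * t1) + (A-B)^2 * (m+1) *
      (rf (4/3) m * rf (2/3) m * t0)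
      - (1/3)^2 * (A-B)^2 * (rf (4/3) m * rf (2/3) m * t0 / (m+1))) = 0 := by
    have e : ((m:ℝ)+1) * ((1/3)^2 * (A-B)^2 * (rf (4/3) m * rf (2/3) m * t0 / (m+1))) =
      (1/3)^2 * (A-B)^2 * (rf (4/3) m * rf (2/3) m * t0) := by
      field_simp
    rw [mul_sub, e]
    linear_combination (rf (4/3) m * rf (2/3) m * (((m:ℝ)+1)^2 - 1/9)) * h
  rcases mul_eq_zero.mp this with h | h
  · exact absurd h hm.ne'
  · exact h

theorem rf43 {l m : ℕ} (h : l ≤ m) :
    rf (4/3) m * (Nat.factorial (l+1) : ℝ) ≤ rf (4/3) l * (Nat.factorial (m+1) : ℝ) := by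
  induction m, h using Nat.le_induction with
  | base => exact le_refl _
  | succ m hm ih =>
    rw [rf_succ, Nat.factorial_succ (m+1)]
    have h1 := rf_pos (s := 4/3) (by norm_num) m
    have h2 := rf_pos (s := 4/3) (by norm_num) l
    have h3 : (0:ℝ) < (Nat.factorial (l+1) : ℝ) := by positivity
    have h4 : (0:ℝ) < (Nat.factorial (m+1) : ℝ) := by positivity
    push_cast
    calc rf (4/3) m * (4/3 + (m:ℝ)) * (Nat.factorial (l+1) : ℝ)
        = (rf (4/3) m * (Nat.factorial (l+1) : ℝ)) * (4/3 + (m:ℝ)) := by ring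
      _ ≤ (rf (4/3) l * (Nat.factorial (m+1) : ℝ)) * ((m:ℝ)+1+1) := by
          apply mul_le_mul ih _ (by positivity) (by positivity)
          linarith
      _ = _ := by ring

theorem rf23 {i m : ℕ} (h : i ≤ m) :
    rf (2/3) m * (Nat.factorial i : ℝ) ≤ rf (2/3) i * (Nat.factorial m : ℝ) := by
  induction m, h using Nat.le_induction with
  | base => exact le_refl _
  | succ m hm ih =>
    rw [rf_succ, Nat.factorial_succ m]
    have h1 := rf_pos (s := 2/3) (by norm_num) m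
    have h2 := rf_pos (s := 2/3) (by norm_num) i
    push_cast
    calc rf (2/3) m * (2/3 + (m:ℝ)) * (Nat.factorial i : ℝ)
        = (rf (2/3) m * (Nat.factorial i : ℝ)) * (2/3 + (m:ℝ)) := by ring
      _ ≤ (rf (2/3) i * (Nat.factorial m : ℝ)) * ((m:ℝ)+1) := by
          apply mul_le_mul ih _ (by positivity) (by positivity)
          linarith
      _ = _ := by ring

theorem coef_le {i m : ℕ} (h : i ≤ m) :
    rf (4/3) m * rf (2/3) m / (rf (2/3) i * (Nat.factorial i : ℝ) * (rf (4/3) (m-i) *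
    (Nat.factorial (m-i) : ℝ))) ≤ ((m:ℝ)+1) * (Nat.choose m i : ℝ)^2 := by
  have hl : m - i ≤ m := Nat.sub_le _ _
  have a1 := rf43 hl
  have a2 := rf23 h
  set l := m - i with hl'
  have h1 := rf_pos (s := 4/3) (by norm_num) m
  have h2 := rf_pos (s := 4/3) (by norm_num) l
  have h3 := rf_pos (s := 2/3) (by norm_num) m
  have h4 := rf_pos (s := 2/3) (by norm_num) i
  have f1 : (0:ℝ) < (Nat.factorial i : ℝ) := by positivity
  have f2 : (0:ℝ) < (Nat.factorial l : ℝ) := by positivity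
  have f3 : (0:ℝ) < (Nat.factorial m : ℝ) := by positivity
  have hc : (Nat.choose m i : ℝ) * (Nat.factorial i : ℝ) * (Nat.factorial l : ℝ) =
      (Nat.factorial m : ℝ) := by
    exact_mod_cast Nat.choose_mul_factorial_mul_factorial h
  have hcc : (Nat.choose m i : ℝ) = (Nat.factorial m : ℝ) / ((Nat.factorial i : ℝ) *
      (Nat.factorial l : ℝ)) := by
    rw [eq_div_iff (by positivity), ← hc]; ring
  rw [div_le_iff₀ (by positivity), hcc]
  rw [Nat.factorial_succ, Nat.factorial_succ] at a1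
  push_cast at a1
  have hl1 : (1:ℝ) ≤ (l:ℝ) + 1 := by
    have : (0:ℝ) ≤ (l:ℝ) := by positivity
    linarith
  have b1 : rf (4/3) m * (Nat.factorial l : ℝ) ≤ rf (4/3) l * (((m:ℝ)+1) *
      (Nat.factorial m : ℝ)) := by
    refine le_trans ?_ a1
    have : (0:ℝ) ≤ rf (4/3) m * (Nat.factorial l : ℝ) := by positivity
    calc rf (4/3) m * (Nat.factorial l : ℝ) ≤ ((l:ℝ)+1) * (rf (4/3) m * (Nat.factorial l : ℝ)) :=
          by nlinarith
      _ = _ := by ring
  have b2 : (rf (4/3) m * (Nat.factorial l : ℝ)) * (rf (2/3) m * (Nat.factorial i : ℝ)) ≤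
      (rf (4/3) l * (((m:ℝ)+1) * (Nat.factorial m : ℝ))) * (rf (2/3) i * (Nat.factorial m : ℝ)) :=
    mul_le_mul b1 a2 (by positivity) (by positivity)
  have e : ((m:ℝ)+1) * ((Nat.factorial m : ℝ) / ((Nat.factorial i : ℝ) *
      (Nat.factorial l : ℝ)))^2 * (rf (2/3) i * (Nat.factorial i : ℝ) * (rf (4/3) l *
      (Nat.factorial l : ℝ))) = (rf (4/3) l * (((m:ℝ)+1) * (Nat.factorial m : ℝ))) *
      (rf (2/3) i * (Nat.factorial m : ℝ)) / ((Nat.factorial i : ℝ) * (Nat.factorial l : ℝ)) := by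
    field_simp
  rw [e, le_div_iff₀ (by positivity)]
  calc _ = (rf (4/3) m * (Nat.factorial l : ℝ)) * (rf (2/3) m * (Nat.factorial i : ℝ)) := by ring
    _ ≤ _ := b2

theorem wp_nonneg {A B : ℝ} (hA : 0 < A) (hB : 0 < B) (m : ℕ) : 0 ≤ wp A B m := by
  unfold wp
  apply Finset.sum_nonneg
  intro i _
  have h1 := rf_pos (s := 4/3) (by norm_num) m
  have h2 := rf_pos (s := 4/3) (by norm_num) (m-i)
  have h3 := rf_pos (s := 2/3) (by norm_num) m
  have h4 := rf_pos (s := 2/3) (by norm_num) i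
  positivity

theorem wp_le {A B : ℝ} (hA : 0 < A) (hB : 0 < B) (m : ℕ) :
    wp A B m ≤ ((m:ℝ)+1) * ((Real.sqrt A + Real.sqrt B)^2)^m := by
  have hsA := Real.sqrt_pos.mpr hA
  have hsB := Real.sqrt_pos.mpr hB
  have hbin : (Real.sqrt B + Real.sqrt A)^m = ∑ i ∈ Finset.range (m+1),
      Real.sqrt B ^ i * Real.sqrt A ^ (m-i) * (Nat.choose m i : ℝ) := add_pow _ _ _
  set S := (Real.sqrt B + Real.sqrt A)^m with hS
  have hle : ∀ i ∈ Finset.range (m+1), Real.sqrt B ^ i * Real.sqrt A ^ (m-i) *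
      (Nat.choose m i : ℝ) ≤ S := by
    intro i hi
    rw [hbin]
    exact Finset.single_le_sum (f := fun i => Real.sqrt B ^ i * Real.sqrt A ^ (m-i) *
      (Nat.choose m i : ℝ)) (fun j _ => by positivity) hi
  have hSpos : 0 < S := by positivity
  calc wp A B m ≤ ∑ i ∈ Finset.range (m+1), ((m:ℝ)+1) * ((Real.sqrt B ^ i * Real.sqrt A ^ (m-i) *
      (Nat.choose m i : ℝ)) * S) := by
        unfold wp
        apply Finset.sum_le_sum
        intro i hi
        have him : i ≤ m := by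
          have := Finset.mem_range.mp hi; omega
        have hc := coef_le him
        have e1 : B^i = (Real.sqrt B ^ i)^2 := by
          rw [← pow_mul, mul_comm, pow_mul, Real.sq_sqrt hB.le]
        have e2 : A^(m-i) = (Real.sqrt A ^ (m-i))^2 := by
          rw [← pow_mul, mul_comm, pow_mul, Real.sq_sqrt hA.le]
        calc _ ≤ (((m:ℝ)+1) * (Nat.choose m i : ℝ)^2) * B^i * A^(m-i) := by
              apply mul_le_mul_of_nonneg_right _ (by positivity)
              apply mul_le_mul_of_nonneg_right hc (by positivity)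
          _ = ((m:ℝ)+1) * ((Real.sqrt B ^ i * Real.sqrt A ^ (m-i) * (Nat.choose m i : ℝ)) *
              (Real.sqrt B ^ i * Real.sqrt A ^ (m-i) * (Nat.choose m i : ℝ))) := by
              rw [e1, e2]; ring
          _ ≤ _ := by
              apply mul_le_mul_of_nonneg_left _ (by positivity)
              apply mul_le_mul_of_nonneg_left (hle i hi) (by positivity)
    _ = ((m:ℝ)+1) * (S * S) := by
        rw [← Finset.mul_sum, ← Finset.sum_mul, ← hbin]
    _ = _ := by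
        rw [hS]
        rw [← pow_mul, mul_comm 2 m, pow_mul, add_comm (Real.sqrt B), sq]

end Pool.Agent.NH97.WI
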